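import Mathlib
import Pool.Agent.H5S.Sparse
import Pool.Agent.H5S.Shifted

/-!
# MP_888f53: for almost all n the least k that works exceeds log n / (log log n)^12

The set of all `n` such that `σ(k²) + φ(n - k²)` is prime for at least one `k` with
`1 ≤ k ≤ log n / (log log n)^12`, `k² < n`, has natural density `0`.

For one `k ≥ 2` the number of such `n ≤ X` is at most `C X (log log X)^11 / log X` (Selberg's sieve and Rankin's
method, uniformly in `s = σ(k²)`, module `H5S.Shifted`); for `k = 1` it is `o(X)` (module `H5S.Sparse`).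
-/

open Finset Filter Topology

namespace Pool.Agent.Results.MP_888f53_nt.AlmostAllFail

open Pool.Agent.H5S

lemma sigma_sq_bounds {k X : ℕ} (hk : 2 ≤ k) (hkX : k ^ 2 ≤ X) :
    2 ≤ ArithmeticFunction.sigma 1 (k ^ 2) ∧ ArithmeticFunction.sigma 1 (k ^ 2) ≤ X ^ 2 := by
  have hk4 : 4 ≤ k ^ 2 := by nlinarith
  rw [ArithmeticFunction.sigma_one_apply]
  constructor
  · have h1 : k ^ 2 ∈ (k ^ 2).divisors := Nat.mem_divisors_self _ (by omega)
    have h2 : k ^ 2 ≤ ∑ d ∈ (k ^ 2).divisors, d :=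
      single_le_sum (f := fun d => d) (fun _ _ => Nat.zero_le _) h1
    omega
  · calc ∑ d ∈ (k ^ 2).divisors, d ≤ ∑ _d ∈ (k ^ 2).divisors, k ^ 2 :=
          sum_le_sum fun d hd => Nat.divisor_le hd
      _ = (k ^ 2).divisors.card * k ^ 2 := by rw [sum_const, smul_eq_mul]
      _ ≤ k ^ 2 * k ^ 2 := Nat.mul_le_mul_right _ (Nat.card_divisors_le_self _)
      _ ≤ X * X := Nat.mul_le_mul hkX hkX
      _ = X ^ 2 := (pow_two X).symm

/-- `k = 1` -/
lemma k_one {ε : ℝ} (hε : 0 < ε) : ∃ C : ℝ, ∀ N : ℕ,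
    (((range N).filter (fun n => 1 ^ 2 < n ∧
      (ArithmeticFunction.sigma 1 (1 ^ 2) + Nat.totient (n - 1 ^ 2)).Prime)).card : ℝ) ≤
      ε * N + C := by
  classical
  obtain ⟨X₀, hX₀⟩ := totient_add_one_sparse hε
  refine ⟨X₀, fun N => ?_⟩
  have h1 : (((range N).filter (fun n => 1 ^ 2 < n ∧
      (ArithmeticFunction.sigma 1 (1 ^ 2) + Nat.totient (n - 1 ^ 2)).Prime)).card : ℝ) ≤
      (((Icc 1 N).filter (fun m => (m.totient + 1).Prime)).card : ℝ) := by
    norm_cast
    refine card_le_card_of_injOn (fun n => n - 1) (fun n hn => ?_) (fun n hn n' hn' h => ?_)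
    · simp only [one_pow, ArithmeticFunction.sigma_one, coe_filter, mem_range,
        Set.mem_ofPred_eq] at hn
      obtain ⟨h1, h2, h3⟩ := hn
      simp only [coe_filter, mem_Icc, Set.mem_ofPred_eq]
      refine ⟨by omega, ?_⟩
      rw [add_comm]
      exact h3
    · simp only [one_pow, ArithmeticFunction.sigma_one, coe_filter, mem_range,
        Set.mem_ofPred_eq] at hn hn'
      simp only at h
      omega
  refine h1.trans ?_
  by_cases hN : X₀ ≤ N
  · have := hX₀ N hN
    have h2 : (0 : ℝ) ≤ X₀ := Nat.cast_nonneg _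
    linarith
  · have h2 : (((Icc 1 N).filter (fun m => (m.totient + 1).Prime)).card : ℝ) ≤ N := by
      have := card_filter_le (Icc 1 N) (fun m => (m.totient + 1).Prime)
      rw [Nat.card_Icc, Nat.add_sub_cancel] at this
      exact_mod_cast this
    have h3 : (N : ℝ) ≤ X₀ := by exact_mod_cast (not_le.1 hN).le
    have h4 : 0 ≤ ε * (N : ℝ) := by positivity
    linarith

lemma one_k_bound : ∃ C : ℝ, 0 < C ∧ ∃ X₀ : ℕ, ∀ X k : ℕ, X₀ ≤ X → 2 ≤ k → k ^ 2 ≤ X →
    (((range X).filter (fun n => k ^ 2 < n ∧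
      (ArithmeticFunction.sigma 1 (k ^ 2) + Nat.totient (n - k ^ 2)).Prime)).card : ℝ) ≤
      C * (X * Real.log (Real.log X) ^ 11 / Real.log X) := by
  classical
  obtain ⟨C, hC, X₁, h1⟩ := shifted_totient_prime
  refine ⟨C, hC, X₁, fun X k hX hk hkX => ?_⟩
  obtain ⟨hs1, hs2⟩ := sigma_sq_bounds (X := X) hk hkX
  refine le_trans ?_ (h1 X (ArithmeticFunction.sigma 1 (k ^ 2)) hX hs1 hs2)
  norm_cast
  refine card_le_card_of_injOn (fun n => n - k ^ 2) (fun n hn => ?_) (fun n hn n' hn' h => ?_)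
  · simp only [coe_filter, mem_range, Set.mem_ofPred_eq] at hn
    obtain ⟨h2, h3, h4⟩ := hn
    simp only [coe_filter, mem_Icc, Set.mem_ofPred_eq]
    refine ⟨by omega, ?_⟩
    rw [add_comm]
    exact h4
  · simp only [coe_filter, mem_range, Set.mem_ofPred_eq] at hn hn'
    simp only at h
    omega

open Classical in
/-- For almost all `n` (natural density one) `σ(k²) + φ(n - k²)` is not prime for any `k` with
`1 ≤ k ≤ log n / (log log n) ^ 12` and `k² < n`. -/
theorem result :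
    Tendsto (fun N : ℕ => (((range N).filter (fun n : ℕ => ∃ k : ℕ, 1 ≤ k ∧
      (k : ℝ) ≤ Real.log n / Real.log (Real.log n) ^ 12 ∧ k ^ 2 < n ∧
      (ArithmeticFunction.sigma 1 (k ^ 2) + Nat.totient (n - k ^ 2)).Prime)).card : ℝ) / N)
      atTop (𝓝 0) := by
  classical
  rw [Metric.tendsto_atTop]
  intro ε hε
  obtain ⟨C, hC, X₁, h1⟩ := one_k_bound
  obtain ⟨C₁, hC₁⟩ := k_one (ε := ε / 4) (by positivity)
  have hcast : Tendsto (fun X : ℕ => (X : ℝ)) atTop atTop := tendsto_natCast_atTop_atTop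
  have hl : Tendsto (fun X : ℕ => Real.log (X : ℝ)) atTop atTop :=
    Real.tendsto_log_atTop.comp hcast
  have hll : Tendsto (fun X : ℕ => Real.log (Real.log (X : ℝ))) atTop atTop :=
    Real.tendsto_log_atTop.comp hl
  have hs : Tendsto (fun X : ℕ => Real.sqrt (X : ℝ)) atTop atTop :=
    Real.tendsto_sqrt_atTop.comp hcast
  have hev : ∀ᶠ X : ℕ in atTop, X₁ ≤ X ∧ 3 ≤ X ∧ 4 * |C₁| / ε < X ∧ 8 / ε + 1 ≤ Real.sqrt X ∧
      max (4096 * C * 8 / ε) 2 ≤ Real.log (Real.log X) := by
    filter_upwards [eventually_ge_atTop X₁, eventually_ge_atTop 3,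
      hcast.eventually_gt_atTop (4 * |C₁| / ε), hs.eventually_ge_atTop (8 / ε + 1),
      hll.eventually_ge_atTop (max (4096 * C * 8 / ε) 2)] with X e1 e2 e3 e4 e5
    exact ⟨e1, e2, e3, e4, e5⟩
  obtain ⟨N₀, hN₀⟩ := eventually_atTop.1 hev
  refine ⟨N₀, fun X hX => ?_⟩
  obtain ⟨e1, e2, e3, e4, e5⟩ := hN₀ X hX
  have hXpos : (0 : ℝ) < X := by positivity
  have hX1r : (1 : ℝ) < X := by exact_mod_cast (by omega : 1 < X)
  set L : ℝ := Real.log X with hL
  have hL0 : 0 < L := Real.log_pos hX1r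
  set lam : ℝ := Real.log L with hlam
  have hlam2 : 2 ≤ lam := (le_max_right _ _).trans e5
  have hlam1 : 4096 * C * 8 / ε ≤ lam := (le_max_left _ _).trans e5
  have hlam0 : 0 < lam := by linarith
  have hLe : Real.exp 2 ≤ L := by
    rw [← Real.le_log_iff_exp_le hL0]
    exact hlam2
  set S : ℝ := Real.sqrt X with hS
  have hS0 : 0 < S := Real.sqrt_pos.2 hXpos
  have hSS : S * S = X := Real.mul_self_sqrt hXpos.le
  have hl2 : Real.log 2 < 1 := by
    have := Real.log_two_lt_d9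
    linarith
  have hl20 : 0 < Real.log 2 := Real.log_pos (by norm_num)
  -- the uniform bound for `k`
  set B : ℝ := 4096 * L / lam ^ 12 with hB
  have hB0 : 0 < B := by positivity
  have hbound : ∀ n : ℕ, S ≤ n → n < X → Real.log n / Real.log (Real.log n) ^ 12 ≤ B := by
    intro n hn hnX
    have hn0 : (0 : ℝ) < n := lt_of_lt_of_le hS0 hn
    have h2 : Real.log n ≤ L := Real.log_le_log hn0 (by exact_mod_cast hnX.le)
    have h3 : L / 2 ≤ Real.log n := by
      have h4 : L = 2 * Real.log S := by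
        rw [hL, ← hSS, Real.log_mul hS0.ne' hS0.ne']
        ring
      have := Real.log_le_log hS0 hn
      linarith
    have h4 : lam / 2 ≤ Real.log (Real.log n) := by
      have h5 : Real.log (L / 2) ≤ Real.log (Real.log n) := Real.log_le_log (by positivity) h3
      rw [Real.log_div hL0.ne' (by norm_num), ← hlam] at h5
      linarith
    calc Real.log n / Real.log (Real.log n) ^ 12 ≤ L / (lam / 2) ^ 12 := by gcongr
      _ = B := by
        rw [hB]
        field_simp
        norm_num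
  set K : ℕ := ⌊B⌋₊ with hK
  have hKB : (K : ℝ) ≤ B := Nat.floor_le hB0.le
  have hsub : (range X).filter (fun n : ℕ => ∃ k : ℕ, 1 ≤ k ∧
      (k : ℝ) ≤ Real.log n / Real.log (Real.log n) ^ 12 ∧ k ^ 2 < n ∧
      (ArithmeticFunction.sigma 1 (k ^ 2) + Nat.totient (n - k ^ 2)).Prime) ⊆
      (range (⌊S⌋₊ + 1)) ∪ (((range X).filter (fun n => 1 ^ 2 < n ∧
        (ArithmeticFunction.sigma 1 (1 ^ 2) + Nat.totient (n - 1 ^ 2)).Prime)) ∪
      ((Icc 2 K).filter (fun k => k ^ 2 ≤ X)).biUnion (fun k => (range X).filter (fun n =>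
        k ^ 2 < n ∧ (ArithmeticFunction.sigma 1 (k ^ 2) + Nat.totient (n - k ^ 2)).Prime))) := by
    intro n hn
    obtain ⟨h4, k, h5, h6, h7, h8⟩ := mem_filter.1 hn
    by_cases hnS : S ≤ n
    · apply mem_union_right
      rcases Nat.lt_or_ge 1 k with hk | hk
      · apply mem_union_right
        have h9 := hbound n hnS (mem_range.1 h4)
        have h10 : k ≤ K := Nat.le_floor (h6.trans h9)
        refine mem_biUnion.2 ⟨k, mem_filter.2 ⟨mem_Icc.2 ⟨hk, h10⟩, ?_⟩, mem_filter.2 ⟨h4, h7, h8⟩⟩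
        have := mem_range.1 h4
        omega
      · apply mem_union_left
        have hk1 : k = 1 := by omega
        subst hk1
        exact mem_filter.2 ⟨h4, h7, h8⟩
    · apply mem_union_left
      rw [mem_range]
      exact Nat.lt_succ_of_le (Nat.le_floor (not_le.1 hnS).le)
  have hcard := (card_le_card hsub).trans ((card_union_le _ _).trans (Nat.add_le_add_left
    ((card_union_le _ _).trans (Nat.add_le_add_left card_biUnion_le _)) _))
  have hcard' : (((range X).filter (fun n : ℕ => ∃ k : ℕ, 1 ≤ k ∧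
      (k : ℝ) ≤ Real.log n / Real.log (Real.log n) ^ 12 ∧ k ^ 2 < n ∧
      (ArithmeticFunction.sigma 1 (k ^ 2) + Nat.totient (n - k ^ 2)).Prime)).card : ℝ) ≤
      ((⌊S⌋₊ : ℕ) + 1 : ℝ) + ((((range X).filter (fun n => 1 ^ 2 < n ∧
        (ArithmeticFunction.sigma 1 (1 ^ 2) + Nat.totient (n - 1 ^ 2)).Prime)).card : ℝ) +
      ∑ k ∈ (Icc 2 K).filter (fun k => k ^ 2 ≤ X), (((range X).filter (fun n =>
        k ^ 2 < n ∧ (ArithmeticFunction.sigma 1 (k ^ 2) + Nat.totient (n - k ^ 2)).Prime)).card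
          : ℝ)) := by
    rw [card_range] at hcard
    exact_mod_cast hcard
  have hsum : ∑ k ∈ (Icc 2 K).filter (fun k => k ^ 2 ≤ X), (((range X).filter (fun n =>
        k ^ 2 < n ∧ (ArithmeticFunction.sigma 1 (k ^ 2) + Nat.totient (n - k ^ 2)).Prime)).card
          : ℝ) ≤ ε / 8 * X := by
    have h2 : ∀ k ∈ (Icc 2 K).filter (fun k => k ^ 2 ≤ X), (((range X).filter (fun n =>
        k ^ 2 < n ∧ (ArithmeticFunction.sigma 1 (k ^ 2) + Nat.totient (n - k ^ 2)).Prime)).card
          : ℝ) ≤ C * (X * lam ^ 11 / L) := by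
      intro k hk
      obtain ⟨h3, h4⟩ := mem_filter.1 hk
      exact h1 X k e1 (mem_Icc.1 h3).1 h4
    refine (sum_le_sum h2).trans ?_
    rw [sum_const, nsmul_eq_mul]
    have h3 : (((Icc 2 K).filter (fun k => k ^ 2 ≤ X)).card : ℝ) ≤ B := by
      have h4 : ((Icc 2 K).filter (fun k => k ^ 2 ≤ X)).card ≤ K := by
        refine (card_filter_le _ _).trans ?_
        rw [Nat.card_Icc]
        omega
      exact le_trans (by exact_mod_cast h4) hKB
    have h4 : 4096 * C ≤ ε / 8 * lam := by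
      rw [div_le_iff₀ hε] at hlam1
      linarith
    calc (((Icc 2 K).filter (fun k => k ^ 2 ≤ X)).card : ℝ) * (C * (X * lam ^ 11 / L))
        ≤ B * (C * (X * lam ^ 11 / L)) := by gcongr
      _ = (4096 * C) * X / lam := by
          rw [hB]
          field_simp
      _ ≤ (ε / 8 * lam) * X / lam := by gcongr
      _ = ε / 8 * X := by field_simp
  have hS1 : ((⌊S⌋₊ : ℕ) + 1 : ℝ) ≤ ε / 4 * X := by
    have h2 : ((⌊S⌋₊ : ℕ) : ℝ) ≤ S := Nat.floor_le hS0.le
    have h8 : 0 < 8 / ε := by positivity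
    have h3 : 8 ≤ ε * S := by
      have : 8 / ε ≤ S := by linarith
      rw [div_le_iff₀ hε] at this
      linarith
    have h4 : 1 ≤ S := by linarith
    have h5 : S * 8 ≤ S * (ε * S) := by gcongr
    have h6 : S * (ε * S) = ε * X := by rw [← hSS]; ring
    linarith
  have hk1 := hC₁ X
  have h9 : C₁ < ε / 4 * X := by
    rw [div_lt_iff₀ hε] at e3
    have := le_abs_self C₁
    linarith
  rw [Real.dist_eq, sub_zero, abs_of_nonneg (by positivity), div_lt_iff₀ hXpos]
  have h10 : 0 < ε / 8 * X := by positivity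
  linarith

end Pool.Agent.Results.MP_888f53_nt.AlmostAllFail
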