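import Mathlib
import Pool.Agent.H5S.Shifted

/-!
# MP_888f53: the mean value of a(n) is at most √X (log log X)^11 / log X

`a(n)` is the number of `k ≥ 1` with `2 k² ≤ n` and `σ(k²) + φ(n - k²)` prime. We show
`∑_{n ≤ X} a(n) ≤ C X^(3/2) (log log X)^11 / log X`. The heuristic order is `X^(3/2) / log X`.

For fixed `s = σ(k²) ≥ 2` the `m ≤ X` with `φ(m) + s` prime are counted: `m = p r` with `p > y^36` prime, `p ∤ r`,
`log y ≍ log X / log log X`; Selberg's sieve for `p` and `φ(r)(p - 1) + s` (if `φ(r) = s` the number `s p` is not prime);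
the `y^36`-smooth `m` are at most `C X / log X` by Rankin's method.
-/

open Finset Filter Topology

namespace Pool.Agent.Results.MP_888f53_nt.FewRepresentations

open Pool.Agent.H5S

/-- the number `a(n)` of the problem: the positive integers `k` with `2 k ^ 2 ≤ n` and
`σ (k ^ 2) + φ (n - k ^ 2)` prime (such a `k` is at most `n`) -/
def a (n : ℕ) : ℕ :=
  ((Icc 1 n).filter (fun k => 2 * k ^ 2 ≤ n ∧
    (ArithmeticFunction.sigma 1 (k ^ 2) + Nat.totient (n - k ^ 2)).Prime)).card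

/-- the sum of `a` over `n ≤ X`, reorganised along `k` -/
lemma sum_a_le (X : ℕ) : ∑ n ∈ Icc 1 X, a n ≤ ∑ k ∈ Icc 1 (Nat.sqrt X),
    ((Icc 1 X).filter (fun n => k ^ 2 < n ∧
      (ArithmeticFunction.sigma 1 (k ^ 2) + Nat.totient (n - k ^ 2)).Prime)).card := by
  classical
  have h1 : ∀ n ∈ Icc 1 X, a n ≤ ∑ k ∈ Icc 1 (Nat.sqrt X), if k ^ 2 < n ∧
      (ArithmeticFunction.sigma 1 (k ^ 2) + Nat.totient (n - k ^ 2)).Prime then 1 else 0 := by
    intro n hn
    rw [← card_filter]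
    refine card_le_card fun k hk => ?_
    obtain ⟨h1, h2, h3⟩ := mem_filter.1 hk
    have h4 := (mem_Icc.1 h1).1
    have h5 := (mem_Icc.1 hn).2
    have h6 : k ^ 2 < n := by nlinarith
    refine mem_filter.2 ⟨mem_Icc.2 ⟨h4, ?_⟩, h6, h3⟩
    rw [Nat.le_sqrt']
    omega
  refine (sum_le_sum h1).trans ?_
  rw [sum_comm]
  refine sum_le_sum fun k _ => ?_
  rw [card_filter]

lemma sigma_sq_bounds {k X : ℕ} (hk : 2 ≤ k) (hkX : k ^ 2 ≤ X) :
    2 ≤ ArithmeticFunction.sigma 1 (k ^ 2) ∧ ArithmeticFunction.sigma 1 (k ^ 2) ≤ X ^ 2 := by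
  have hk4 : 4 ≤ k ^ 2 := by nlinarith
  rw [ArithmeticFunction.sigma_one_apply]
  constructor
  · have h1 : k ^ 2 ∈ (k ^ 2).divisors := Nat.mem_divisors_self _ (by omega)
    have h2 : k ^ 2 ≤ ∑ d ∈ (k ^ 2).divisors, d :=
      single_le_sum (f := fun d => d) (fun _ _ => Nat.zero_le _) h1
    omega
  · calc ∑ d ∈ (k ^ 2).divisors, d ≤ ∑ _d ∈ (k ^ 2).divisors, k ^ 2 :=
          sum_le_sum fun d hd => Nat.divisor_le hd
      _ = (k ^ 2).divisors.card * k ^ 2 := by rw [sum_const, smul_eq_mul]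
      _ ≤ k ^ 2 * k ^ 2 := Nat.mul_le_mul_right _ (Nat.card_divisors_le_self _)
      _ ≤ X * X := Nat.mul_le_mul hkX hkX
      _ = X ^ 2 := (pow_two X).symm

/-- `∑_{n ≤ X} a(n) ≤ C X^(3/2) (log log X)^11 / log X` for all large `X` -/
theorem result : ∃ C : ℝ, ∃ X₀ : ℕ, ∀ X : ℕ, X₀ ≤ X →
    ∑ n ∈ Icc 1 X, (a n : ℝ) ≤
      C * ((X : ℝ) ^ (3 / 2 : ℝ) * Real.log (Real.log X) ^ 11 / Real.log X) := by
  classical
  obtain ⟨C, hC, X₁, h1⟩ := shifted_totient_prime
  have hcast : Tendsto (fun X : ℕ => (X : ℝ)) atTop atTop := tendsto_natCast_atTop_atTop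
  have hll : Tendsto (fun X : ℕ => Real.log (Real.log (X : ℝ))) atTop atTop :=
    Real.tendsto_log_atTop.comp (Real.tendsto_log_atTop.comp hcast)
  obtain ⟨X₂, hX₂⟩ := eventually_atTop.1 (hll.eventually_ge_atTop 2)
  refine ⟨C + 1, max X₁ (max X₂ 3), fun X hX => ?_⟩
  have hX1 : X₁ ≤ X := (le_max_left _ _).trans hX
  have hX2 : X₂ ≤ X := ((le_max_left _ _).trans (le_max_right _ _)).trans hX
  have hX3 : 3 ≤ X := ((le_max_right _ _).trans (le_max_right _ _)).trans hX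
  have hXpos : (0 : ℝ) < X := by positivity
  have hX1r : (1 : ℝ) < X := by exact_mod_cast (by omega : 1 < X)
  set L : ℝ := Real.log X with hL
  have hL0 : 0 < L := Real.log_pos hX1r
  set lam : ℝ := Real.log L with hlam
  have hlam2 : 2 ≤ lam := hX₂ X hX2
  set S : ℝ := Real.sqrt X with hS
  have hS0 : 0 < S := Real.sqrt_pos.2 hXpos
  have hSS : S * S = X := Real.mul_self_sqrt hXpos.le
  have hK : ((Nat.sqrt X : ℕ) : ℝ) ≤ S := Real.nat_sqrt_le_real_sqrt
  set K : ℕ := Nat.sqrt X with hKdef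
  have hpow : (X : ℝ) ^ (3 / 2 : ℝ) = X * S := by
    rw [hS, Real.sqrt_eq_rpow, show (3 / 2 : ℝ) = 1 + 1 / 2 by norm_num, Real.rpow_add hXpos,
      Real.rpow_one]
  rw [hpow]
  have hterm : ∀ k ∈ Icc 1 K, (((Icc 1 X).filter (fun n => k ^ 2 < n ∧
      (ArithmeticFunction.sigma 1 (k ^ 2) + Nat.totient (n - k ^ 2)).Prime)).card : ℝ) ≤
      C * (X * lam ^ 11 / L) + (if k = 1 then (X : ℝ) else 0) := by
    intro k hk
    rw [mem_Icc] at hk
    have hnn : 0 ≤ C * (X * lam ^ 11 / L) := by positivity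
    by_cases hk1 : k = 1
    · rw [if_pos hk1]
      have h2 : (((Icc 1 X).filter (fun n => k ^ 2 < n ∧
          (ArithmeticFunction.sigma 1 (k ^ 2) + Nat.totient (n - k ^ 2)).Prime)).card : ℝ) ≤ X := by
        have := card_filter_le (Icc 1 X) (fun n => k ^ 2 < n ∧
          (ArithmeticFunction.sigma 1 (k ^ 2) + Nat.totient (n - k ^ 2)).Prime)
        rw [Nat.card_Icc, Nat.add_sub_cancel] at this
        exact_mod_cast this
      linarith
    · rw [if_neg hk1, add_zero]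
      have hkX : k ^ 2 ≤ X := Nat.le_sqrt'.1 hk.2
      obtain ⟨hs1, hs2⟩ := sigma_sq_bounds (X := X) (by omega : 2 ≤ k) hkX
      refine le_trans ?_ (h1 X (ArithmeticFunction.sigma 1 (k ^ 2)) hX1 hs1 hs2)
      norm_cast
      refine card_le_card_of_injOn (fun n => n - k ^ 2) (fun n hn => ?_)
        (fun n hn n' hn' h => ?_)
      · simp only [coe_filter, mem_Icc, Set.mem_ofPred_eq] at hn
        obtain ⟨h2, h3, h4⟩ := hn
        simp only [coe_filter, mem_Icc, Set.mem_ofPred_eq]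
        refine ⟨by omega, ?_⟩
        rw [add_comm]
        exact h4
      · simp only [coe_filter, mem_Icc, Set.mem_ofPred_eq] at hn hn'
        simp only at h
        omega
  have h2 : ∑ n ∈ Icc 1 X, (a n : ℝ) ≤
      ∑ k ∈ Icc 1 K, (C * (X * lam ^ 11 / L) + (if k = 1 then (X : ℝ) else 0)) := by
    refine le_trans (b := ((∑ k ∈ Icc 1 K,
      ((Icc 1 X).filter (fun n => k ^ 2 < n ∧
        (ArithmeticFunction.sigma 1 (k ^ 2) + Nat.totient (n - k ^ 2)).Prime)).card : ℕ) : ℝ)) ?_ ?_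
    · exact_mod_cast sum_a_le X
    · push_cast
      exact sum_le_sum hterm
  rw [sum_add_distrib, sum_const, nsmul_eq_mul, Nat.card_Icc, Nat.add_sub_cancel] at h2
  have h3 : ∑ k ∈ Icc 1 K, (if k = 1 then (X : ℝ) else 0) ≤ X := by
    rw [sum_ite_eq']
    split_ifs
    · exact le_rfl
    · exact hXpos.le
  have h4 : (K : ℝ) * (C * (X * lam ^ 11 / L)) ≤ S * (C * (X * lam ^ 11 / L)) := by gcongr
  have h5 : (X : ℝ) ≤ X * S * lam ^ 11 / L := by
    rw [le_div_iff₀ hL0]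
    have h6 : L ≤ 2 * S := by
      have h7 := Real.log_le_sub_one_of_pos hS0
      have h8 : L = 2 * Real.log S := by
        rw [hL, ← hSS, Real.log_mul hS0.ne' hS0.ne']
        ring
      linarith
    have h7 : 2 ≤ lam ^ 11 := by
      have : lam ≤ lam ^ 11 := le_self_pow₀ (by linarith) (by norm_num)
      linarith
    have h8 : L ≤ S * lam ^ 11 := by nlinarith
    calc (X : ℝ) * L ≤ X * (S * lam ^ 11) := by gcongr
      _ = X * S * lam ^ 11 := by ring
  have h9 : S * (C * (X * lam ^ 11 / L)) = C * (X * S * lam ^ 11 / L) := by ring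
  have h10 : (C + 1) * (X * S * lam ^ 11 / L) = C * (X * S * lam ^ 11 / L) + X * S * lam ^ 11 / L := by
    ring
  linarith

end Pool.Agent.Results.MP_888f53_nt.FewRepresentations
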