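import Mathlib
import Pool.Agent.H5S.Base

/-!
# MP_888f53: a(c N²) = o(N) for every fixed c

Pointwise in `N`: for `n = c N²` almost none of the admissible `k` has `σ(k²) + φ(n - k²)` prime. For a prime `q ≡ 1 (mod 12 c)`
the number `c` is a square `t²` modulo `q`; if `k ≡ t N (mod q)` then `q ∣ n - k²` and `3 ∣ φ(n - k²)`; and
`3 ∣ σ(k²)` if a prime `q ≡ 1 (mod 3)` divides `k` exactly once.
-/

open Finset Filter Topology

namespace Pool.Agent.Results.MP_888f53_nt.PointwiseSmall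

open Pool.Agent.H5S

/-- the number `a(n)` of the problem: the positive integers `k` with `2 k ^ 2 ≤ n` and
`σ (k ^ 2) + φ (n - k ^ 2)` prime (such a `k` is at most `n`) -/
def a (n : ℕ) : ℕ :=
  ((Icc 1 n).filter (fun k => 2 * k ^ 2 ≤ n ∧
    (ArithmeticFunction.sigma 1 (k ^ 2) + Nat.totient (n - k ^ 2)).Prime)).card

/-- `3 ∣ σ (k ^ 2)` as soon as a prime `p ≡ 1 (mod 3)` divides `k` exactly once -/
lemma three_dvd_sigma {k p : ℕ} (hp : p.Prime) (h3 : 3 ∣ p - 1) (hk : p ∣ k) (hk2 : ¬ p ^ 2 ∣ k) :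
    3 ∣ ArithmeticFunction.sigma 1 (k ^ 2) := by
  obtain ⟨l, rfl⟩ := hk
  have hl : ¬ p ∣ l := fun h => hk2 (by rw [pow_two]; exact Nat.mul_dvd_mul_left p h)
  have hcop : (p ^ 2).Coprime (l ^ 2) := Nat.Coprime.pow 2 2 ((hp.coprime_iff_not_dvd).2 hl)
  rw [mul_pow, ArithmeticFunction.isMultiplicative_sigma.map_mul_of_coprime hcop]
  refine Dvd.dvd.mul_right ?_ _
  rw [ArithmeticFunction.sigma_one_apply_prime_pow hp]
  obtain ⟨t, ht⟩ := h3
  have hp1 : p = 3 * t + 1 := by have := hp.pos; omega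
  subst hp1
  refine ⟨3 * t ^ 2 + 3 * t + 1, ?_⟩
  simp only [sum_range_succ, sum_range_zero]
  ring

/-- if `k` is divisible exactly once by a prime of `P` and `m` is divisible by one, no prime -/
lemma not_prime_of {P : Finset ℕ} (hP : ∀ p ∈ P, p.Prime ∧ 3 ∣ p - 1) {k m : ℕ} (hm : 0 < m)
    (hk : 3 ∣ ArithmeticFunction.sigma 1 (k ^ 2)) (hk0 : 0 < k)
    (h : (ArithmeticFunction.sigma 1 (k ^ 2) + Nat.totient m).Prime) :
    (∏ p ∈ P, p).Coprime m := by
  rw [Nat.coprime_prod_left_iff]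
  intro p hp
  obtain ⟨hpp, hpq⟩ := hP p hp
  rw [hpp.coprime_iff_not_dvd]
  intro hdvd
  have h4 : 3 ∣ Nat.totient m := by
    refine hpq.trans ?_
    rw [← Nat.totient_prime hpp]
    exact Nat.totient_dvd_of_dvd hdvd
  have h5 : 0 < Nat.totient m := Nat.totient_pos.2 hm
  have h6 : 0 < ArithmeticFunction.sigma 1 (k ^ 2) :=
    ArithmeticFunction.sigma_pos_iff.2 (by positivity)
  have h7 := (Nat.prime_dvd_prime_iff_eq Nat.prime_three h).1 (dvd_add hk h4)
  omega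

/-- the `k ≤ K` with `3 ∤ σ (k ^ 2)` -/
lemma count_bad {P : Finset ℕ} {T : ℕ} (hP : ∀ p ∈ P, p.Prime ∧ T < p ∧ 3 ∣ p - 1) {ε : ℝ}
    (hM : ((∏ p ∈ P, p).totient : ℝ) ≤ ε * ((∏ p ∈ P, p : ℕ) : ℝ)) (K : ℕ) :
    (((Icc 1 K).filter (fun k => ¬ 3 ∣ ArithmeticFunction.sigma 1 (k ^ 2))).card : ℝ) ≤
      ε * K + ((∏ p ∈ P, p : ℕ) : ℝ) + K * (2 / (T + 1)) := by
  classical
  set M : ℕ := ∏ p ∈ P, p with hMdef
  have hM0 : M ≠ 0 := prod_ne_zero_iff.2 fun p hp => (hP p hp).1.ne_zero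
  have hMpos : (0 : ℝ) < M := by exact_mod_cast Nat.pos_of_ne_zero hM0
  have hsub : (Icc 1 K).filter (fun k => ¬ 3 ∣ ArithmeticFunction.sigma 1 (k ^ 2)) ⊆
      ((Ico 1 (1 + K)).filter (fun x => M.Coprime x)) ∪
        P.biUnion (fun p => (Icc 1 K).filter (fun k => p ^ 2 ∣ k)) := by
    intro k hk
    obtain ⟨h1, h2⟩ := mem_filter.1 hk
    have h1' := mem_Icc.1 h1
    by_cases hc : M.Coprime k
    · exact mem_union_left _ (mem_filter.2 ⟨mem_Ico.2 ⟨h1'.1, by omega⟩, hc⟩)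
    · apply mem_union_right
      rw [hMdef, Nat.coprime_prod_left_iff, not_forall] at hc
      obtain ⟨p, hp'⟩ := hc
      obtain ⟨hp, hpk⟩ := Classical.not_imp.1 hp'
      obtain ⟨hpp, _, hp3⟩ := hP p hp
      rw [hpp.coprime_iff_not_dvd, not_not] at hpk
      refine mem_biUnion.2 ⟨p, hp, mem_filter.2 ⟨h1, ?_⟩⟩
      by_contra h
      exact h2 (three_dvd_sigma hpp hp3 hpk h)
  have h1 := (card_le_card hsub).trans ((card_union_le _ _).trans
    (Nat.add_le_add_left card_biUnion_le _))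
  have h2 : (((Ico 1 (1 + K)).filter (fun x => M.Coprime x)).card : ℝ) ≤ ε * K + M := by
    refine (count_coprime M 1 K hM0).trans ?_
    have h6 : (M.totient : ℝ) * ((K : ℝ) / M) ≤ ε * K := by
      calc (M.totient : ℝ) * ((K : ℝ) / M) ≤ (ε * M) * ((K : ℝ) / M) := by gcongr
        _ = ε * K := by field_simp
    have h7 : (M.totient : ℝ) ≤ M := by exact_mod_cast Nat.totient_le M
    linarith
  have h3 : ∑ p ∈ P, (((Icc 1 K).filter (fun k => p ^ 2 ∣ k)).card : ℝ) ≤ K * (2 / (T + 1)) := by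
    have h4 : ∀ p ∈ P, (((Icc 1 K).filter (fun k => p ^ 2 ∣ k)).card : ℝ) ≤
        K * (((p : ℝ) ^ 2)⁻¹) := by
      intro p hp
      have h5 : ((Icc 1 K).filter (fun k => p ^ 2 ∣ k)).card = K / p ^ 2 := by
        have := Nat.Ioc_filter_dvd_card_eq_div K (p ^ 2)
        rw [← this]
        congr 1
      rw [h5]
      refine Nat.cast_div_le.trans ?_
      push_cast
      rw [div_eq_mul_inv]
    refine (sum_le_sum h4).trans ?_
    rw [← mul_sum]
    refine mul_le_mul_of_nonneg_left ?_ (Nat.cast_nonneg K)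
    refine le_trans ?_ (sum_Ioo_inv_sq_le (α := ℝ) T (P.sup id + 1))
    refine sum_le_sum_of_subset_of_nonneg (fun p hp => ?_) (fun _ _ _ => by positivity)
    rw [mem_Ioo]
    exact ⟨(hP p hp).2.1, Nat.lt_succ_of_le (le_sup (f := id) hp)⟩
  have h4 : (((Icc 1 K).filter (fun k => ¬ 3 ∣ ArithmeticFunction.sigma 1 (k ^ 2))).card : ℝ) ≤
      (((Ico 1 (1 + K)).filter (fun x => M.Coprime x)).card : ℝ) +
        ∑ p ∈ P, (((Icc 1 K).filter (fun k => p ^ 2 ∣ k)).card : ℝ) := by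
    exact_mod_cast h1
  linarith

/-- `c` is a square modulo every prime `q ≡ 1 (mod 4 c)` -/
lemma exists_sq {c q : ℕ} (hc : 1 ≤ c) (hq : q.Prime) (h : 12 * c ∣ q - 1) :
    ∃ s : ℕ, s ^ 2 ≡ c [MOD q] := by
  have : Fact q.Prime := ⟨hq⟩
  have hq1 : q % (4 * c) = 1 := by
    obtain ⟨t, ht⟩ := h
    have h1 : q = 4 * c * (3 * t) + 1 := by
      have := hq.pos
      have h2 : 12 * c * t = 4 * c * (3 * t) := by ring
      omega
    rw [h1, Nat.mul_add_mod]
    exact Nat.mod_eq_of_lt (by omega)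
  have hodd : Odd q := by
    rw [Nat.odd_iff]
    obtain ⟨t, ht⟩ := h
    have h1 : q = 2 * (6 * c * t) + 1 := by
      have := hq.pos
      have h2 : 12 * c * t = 2 * (6 * c * t) := by ring
      omega
    omega
  have hJ : jacobiSym (c : ℤ) q = 1 := by
    rw [jacobiSym.mod_right (c : ℤ) hodd, Int.natAbs_natCast, hq1, jacobiSym.one_right]
  rw [← jacobiSym.legendreSym.to_jacobiSym] at hJ
  have hne : ((c : ℤ) : ZMod q) ≠ 0 := by
    intro h0
    rw [(legendreSym.eq_zero_iff q (c : ℤ)).2 h0] at hJ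
    exact zero_ne_one hJ
  obtain ⟨s, hs⟩ := (legendreSym.eq_one_iff q hne).1 hJ
  refine ⟨s.val, ?_⟩
  rw [← ZMod.natCast_eq_natCast_iff]
  push_cast
  rw [ZMod.natCast_zmod_val, pow_two, ← hs]
  push_cast
  rfl

theorem result (c : ℕ) (hc : 1 ≤ c) :
    Tendsto (fun N : ℕ => (a (c * N ^ 2) : ℝ) / N) atTop (𝓝 0) := by
  classical
  rw [Metric.tendsto_atTop]
  intro ε hε
  have hcr : (1 : ℝ) ≤ c := by exact_mod_cast hc
  set δ : ℝ := ε / (8 * c) with hδ
  have hδ0 : 0 < δ := by positivity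
  obtain ⟨T, hT⟩ := exists_nat_gt (2 / δ)
  obtain ⟨P, hP1, hP2⟩ := exists_sieve (q := 12 * c) (by omega) T hδ0
  set M : ℕ := ∏ p ∈ P, p with hM
  have hM0 : M ≠ 0 := prod_ne_zero_iff.2 fun p hp => (hP1 p hp).1.ne_zero
  have hMpos : (0 : ℝ) < M := by exact_mod_cast Nat.pos_of_ne_zero hM0
  have hP3 : ∀ p ∈ P, p.Prime ∧ T < p ∧ 3 ∣ p - 1 := fun p hp =>
    ⟨(hP1 p hp).1, (hP1 p hp).2.1, (Dvd.intro (4 * c) (by ring)).trans (hP1 p hp).2.2⟩
  have hs : ∀ p : ℕ, ∃ s : ℕ, p ∈ P → s ^ 2 ≡ c [MOD p] := by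
    intro p
    by_cases hp : p ∈ P
    · obtain ⟨s, hs⟩ := exists_sq hc (hP1 p hp).1 (hP1 p hp).2.2
      exact ⟨s, fun _ => hs⟩
    · exact ⟨0, fun h => absurd h hp⟩
  choose s hs using hs
  obtain ⟨t, ht⟩ := Nat.chineseRemainderOfFinset s (fun p => p) P
    (fun p hp => (hP1 p hp).1.ne_zero)
    (fun p hp q hq hpq => (Nat.coprime_primes (hP1 p hp).1 (hP1 q hq).1).2 hpq)
  have hTd : (2 : ℝ) / (T + 1) ≤ δ := by
    rw [div_le_iff₀ (by positivity)]
    rw [div_lt_iff₀ hδ0] at hT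
    nlinarith
  obtain ⟨N₀, hN₀⟩ := exists_nat_gt (8 * (M : ℝ) / ε)
  refine ⟨N₀ + 1, fun N hN => ?_⟩
  have hNpos : (0 : ℝ) < N := by exact_mod_cast (by omega : 0 < N)
  set K : ℕ := c * N with hK
  set u : ℕ := M * (t * N + 1) - t * N with hu
  have hMu : t * N ≤ M * (t * N + 1) := by
    have h1M : 1 ≤ M := Nat.pos_of_ne_zero hM0
    calc t * N ≤ 1 * (t * N + 1) := by omega
      _ ≤ M * (t * N + 1) := Nat.mul_le_mul_right _ h1M
  have hsub : (Icc 1 (c * N ^ 2)).filter (fun k => 2 * k ^ 2 ≤ c * N ^ 2 ∧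
      (ArithmeticFunction.sigma 1 (k ^ 2) + Nat.totient (c * N ^ 2 - k ^ 2)).Prime) ⊆
      ((Icc 1 K).filter (fun k => ¬ 3 ∣ ArithmeticFunction.sigma 1 (k ^ 2))) ∪
      ((Icc 1 K).filter (fun k => M.Coprime (k + u))) := by
    intro k hk
    obtain ⟨h1, h2, h3⟩ := mem_filter.1 hk
    rw [mem_Icc] at h1
    have hkK : k ≤ K := by
      have h4 : k ^ 2 ≤ (c * N) ^ 2 := by
        calc k ^ 2 ≤ c * N ^ 2 := by omega
          _ ≤ c * (c * N ^ 2) := Nat.le_mul_of_pos_left _ hc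
          _ = (c * N) ^ 2 := by ring
      exact (Nat.pow_le_pow_iff_left two_ne_zero).1 h4
    by_cases h4 : 3 ∣ ArithmeticFunction.sigma 1 (k ^ 2)
    · refine mem_union_right _ (mem_filter.2 ⟨mem_Icc.2 ⟨h1.1, hkK⟩, ?_⟩)
      have hkpos : 0 < k ^ 2 := by have := h1.1; positivity
      have h5 := not_prime_of (fun p hp => ⟨(hP3 p hp).1, (hP3 p hp).2.2⟩)
        (by omega : 0 < c * N ^ 2 - k ^ 2) h4 h1.1 h3
      rw [hM, Nat.coprime_prod_left_iff]
      intro p hp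
      rw [(hP1 p hp).1.coprime_iff_not_dvd]
      intro hdvd
      rw [Nat.coprime_prod_left_iff] at h5
      have h6 := h5 p hp
      rw [(hP1 p hp).1.coprime_iff_not_dvd] at h6
      apply h6
      -- `k ≡ t N`
      have hpM : p ∣ M := dvd_prod_of_mem _ hp
      have h7 : k ≡ t * N [MOD p] := by
        have h8 : k + u + t * N = k + M * (t * N + 1) := by omega
        have h9 : k + u + t * N ≡ 0 + t * N [MOD p] :=
          Nat.ModEq.add_right _ ((Nat.modEq_zero_iff_dvd).2 hdvd)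
        have h10 : k + M * (t * N + 1) ≡ k + 0 [MOD p] :=
          Nat.ModEq.add_left _ ((Nat.modEq_zero_iff_dvd).2 (Dvd.dvd.mul_right hpM _))
        rw [h8] at h9
        have h11 := h10.symm.trans h9
        simpa using h11
      have h8 : k ^ 2 ≡ c * N ^ 2 [MOD p] := by
        have h9 : k ^ 2 ≡ (t * N) ^ 2 [MOD p] := h7.pow 2
        have h10 : t ^ 2 ≡ c [MOD p] := ((ht p hp).pow 2).trans (hs p hp)
        have h11 : (t * N) ^ 2 ≡ c * N ^ 2 [MOD p] := by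
          rw [mul_pow]
          exact h10.mul_right _
        exact h9.trans h11
      exact (Nat.modEq_iff_dvd' (by omega)).1 h8
    · exact mem_union_left _ (mem_filter.2 ⟨mem_Icc.2 ⟨h1.1, hkK⟩, h4⟩)
  have h1 := (card_le_card hsub).trans (card_union_le _ _)
  have h2 := count_bad hP3 hP2 K
  have h3 : (((Icc 1 K).filter (fun k => M.Coprime (k + u))).card : ℝ) ≤ δ * K + M := by
    have h4 : (((Icc 1 K).filter (fun k => M.Coprime (k + u))).card : ℝ) ≤
        (((Ico (1 + u) (1 + u + K)).filter (fun x => M.Coprime x)).card : ℝ) := by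
      norm_cast
      refine card_le_card_of_injOn (fun k => k + u) (fun k hk => ?_) (fun k _ k' _ h => ?_)
      · simp only [coe_filter, mem_Icc, Set.mem_ofPred_eq] at hk
        simp only [coe_filter, mem_Ico, Set.mem_ofPred_eq]
        exact ⟨by omega, hk.2⟩
      · simp only at h
        omega
    refine h4.trans ((count_coprime M (1 + u) K hM0).trans ?_)
    have h6 : (M.totient : ℝ) * ((K : ℝ) / M) ≤ δ * K := by
      calc (M.totient : ℝ) * ((K : ℝ) / M) ≤ (δ * M) * ((K : ℝ) / M) := by gcongr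
        _ = δ * K := by field_simp
    have h7 : (M.totient : ℝ) ≤ M := by exact_mod_cast Nat.totient_le M
    linarith
  have h4 : (a (c * N ^ 2) : ℝ) ≤
      (((Icc 1 K).filter (fun k => ¬ 3 ∣ ArithmeticFunction.sigma 1 (k ^ 2))).card : ℝ) +
      (((Icc 1 K).filter (fun k => M.Coprime (k + u))).card : ℝ) := by
    unfold a
    exact_mod_cast h1
  have hKr : (K : ℝ) = c * N := by rw [hK]; push_cast; ring
  have h5 : (K : ℝ) * (2 / (T + 1)) ≤ K * δ := by gcongr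
  have h6 : δ * (K : ℝ) = ε / 8 * N := by
    rw [hKr, hδ]
    field_simp
  have h7 : 8 * (M : ℝ) < ε * N := by
    have : 8 * (M : ℝ) / ε < N := hN₀.trans (by exact_mod_cast (by omega : N₀ < N))
    rw [div_lt_iff₀ hε] at this
    linarith
  rw [Real.dist_eq, sub_zero, abs_of_nonneg (by positivity), div_lt_iff₀ hNpos]
  have h8 : (K : ℝ) * δ = δ * K := mul_comm _ _
  have h9 : 0 < ε * N := by positivity
  linarith

end Pool.Agent.Results.MP_888f53_nt.PointwiseSmall
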